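import Pool.Agent.H61.CMC.TargetsE1

/-!
# Row E1_COE of the board cm4_modules: comparison of coefficients
-/

set_option autoImplicit false

open MeasureTheory Set Filter NumberField NumberField.InfinitePlace NumberField.Units
  NumberField.Units.dirichletUnitTheorem
open Pool.Agent.H65.CM4 Pool.Agent.H65.CMC Pool.Agent.H25.HK Pool.Agent.H61.CM4
open Pool.Agent.H61.CMC
open scoped Real

namespace Pool.Agent.H72.CMC1

theorem hasSum_coe (X : Type) (a z : X → ℂ)
    (h : ∀ R : ℝ, Summable (fun i => ‖a i‖ * Real.exp (R * ‖z i‖))) (μ : ℂ) :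
    HasSum (fun j : ℕ => μ ^ j • ((∑' i, a i * z i ^ j) / (j.factorial : ℂ)))
      (∑' i, a i * Complex.exp (μ * z i)) := by
  have hexp : ∀ w : ℂ, HasSum (fun j : ℕ => w ^ j / (j.factorial : ℂ)) (Complex.exp w) := by
    intro w
    rw [Complex.exp_eq_exp_ℂ]
    exact NormedSpace.expSeries_div_hasSum_exp w
  have hexpR : ∀ w : ℝ, HasSum (fun j : ℕ => w ^ j / (j.factorial : ℝ)) (Real.exp w) := by
    intro w
    rw [Real.exp_eq_exp_ℝ]
    exact NormedSpace.expSeries_div_hasSum_exp w
  set g : X × ℕ → ℂ := fun p => a p.1 * ((μ * z p.1) ^ p.2 / (p.2.factorial : ℂ)) with hg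
  have hnorm : ∀ i j, ‖g (i, j)‖ = ‖a i‖ * ((‖μ‖ * ‖z i‖) ^ j / (j.factorial : ℝ)) := by
    intro i j
    simp [hg]
  have hfib : ∀ i, HasSum (fun j => ‖g (i, j)‖) (‖a i‖ * Real.exp (‖μ‖ * ‖z i‖)) := by
    intro i
    simp_rw [hnorm]
    exact (hexpR _).mul_left _
  have hgs : Summable g := by
    refine Summable.of_norm ?_
    rw [summable_prod_of_nonneg (fun p => norm_nonneg _)]
    refine ⟨fun i => (hfib i).summable, ?_⟩
    have : (fun i => ∑' j, ‖g (i, j)‖) = fun i => ‖a i‖ * Real.exp (‖μ‖ * ‖z i‖) := by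
      funext i
      exact (hfib i).tsum_eq
    rw [this]
    exact h _
  have h1 : HasSum (fun i => a i * Complex.exp (μ * z i)) (∑' p, g p) :=
    hgs.hasSum.prod_fiberwise fun i => (hexp (μ * z i)).mul_left (a i)
  have h2 : HasSum (fun p : ℕ × X => g (p.2, p.1)) (∑' p, g p) := by
    have := (Equiv.prodComm ℕ X).hasSum_iff.2 hgs.hasSum
    exact this
  have h3 : HasSum (fun j : ℕ => ∑' i, g (i, j)) (∑' p, g p) :=
    h2.prod_fiberwise fun j => (h2.summable.prod_factor j).hasSum
  rw [h1.tsum_eq]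
  have h4 : (fun j : ℕ => μ ^ j • ((∑' i, a i * z i ^ j) / (j.factorial : ℂ))) =
      fun j : ℕ => ∑' i, g (i, j) := by
    funext j
    rw [smul_eq_mul, ← tsum_div_const, ← tsum_mul_left]
    congr 1
    funext i
    simp only [hg]
    rw [mul_pow]
    ring
  rw [h4]
  exact h3

theorem pf_COE : T_COE := by
  intro X Y a z b w ha hb hab j
  set c : ℕ → ℂ := fun j => (∑' i, a i * z i ^ j) / (j.factorial : ℂ) with hc
  set d : ℕ → ℂ := fun j => (∑' i, b i * w i ^ j) / (j.factorial : ℂ) with hd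
  set F : ℂ → ℂ := fun μ => ∑' i, a i * Complex.exp (μ * z i) with hF
  have h1 : HasFPowerSeriesAt F (FormalMultilinearSeries.ofScalars ℂ c) 0 := by
    rw [hasFPowerSeriesAt_iff]
    refine Eventually.of_forall fun μ => ?_
    simp only [FormalMultilinearSeries.coeff_ofScalars, zero_add]
    exact hasSum_coe X a z ha μ
  have h2 : HasFPowerSeriesAt F (FormalMultilinearSeries.ofScalars ℂ d) 0 := by
    rw [hasFPowerSeriesAt_iff]
    refine Eventually.of_forall fun μ => ?_
    simp only [FormalMultilinearSeries.coeff_ofScalars, zero_add]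
    have h3 : F μ = ∑' i, b i * Complex.exp (μ * w i) := hab μ
    rw [h3]
    exact hasSum_coe Y b w hb μ
  have h4 := h1.eq_formalMultilinearSeries h2
  have h5 : c j = d j := by
    have h6 := congrArg (fun p : FormalMultilinearSeries ℂ ℂ ℂ => p.coeff j) h4
    simp only [FormalMultilinearSeries.coeff_ofScalars] at h6
    exact h6
  simp only [hc, hd] at h5
  have h7 : (j.factorial : ℂ) ≠ 0 := by exact_mod_cast j.factorial_ne_zero
  exact (div_left_inj' h7).1 h5

end Pool.Agent.H72.CMC1
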